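import Pool.Agent.H100Z.Hi

set_option autoImplicit false

open Pool.Agent.H100Z.Defs

/-- Every attractive set of c.e. degree is high. -/
theorem Pool.Agent.Results.MP_ef7593_lc.AAttractiveHigh.result :
    ∀ A : ℕ → Bool, CEDegree A → Attractive A → High A := by
  rintro A ⟨C, hC, h⟩ hA
  exact Pool.Agent.H100Z.HB.high_of_attr hC h hA
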